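import Pool.Agent.X12.Stk2

/-!
# Vojta's conjecture for the integral points of the stack of generalised elliptic curves

`𝒳` is the moduli stack of generalised elliptic curves (the compactification of the moduli stack of
elliptic curves) over the ring `ℤ_S` of `S`-integers, where `S` is a finite set of primes
containing 2 and 3; it is a smooth proper Deligne-Mumford stack over `ℤ_S` (the weighted projective
line with weights 4 and 6), with coarse moduli space the `j`-line.  The divisor `𝒟` is the cusp.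
The canonical divisor `K_X(D)` has degree `1 / 12`, the pull back of a point of the `j`-line has degree
`1 / 2`, so that `h_{K_X(D)}(x) = h(j) / 6`.

The integral points of `𝒳` over `ℤ_S` outside the cusp are the elliptic curves over `ℚ` which are
semistable outside `S`.  For an integral point `x` which is the curve `y² = x³ - a x - b` the reduced
counting function `N^(1)(D, x)` is the sum of `log p` over the primes `p` outside `S` in the denominator
of `j`.

Vojta's conjecture for `𝒳` says that for every `δ > 0` all but finitely many isomorphism classes over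
the algebraic closure satisfy `N^(1)(D, x) ≥ (1 - δ) h_{K_X(D)}(x) - C`.  There are
`H ^ (5 / 6 + o(1))` integral points with `h(j) ≤ log H`.  We show that for every real `c` the number of
those which violate the inequality `N^(1)(D, x) ≥ θ h_{K_X(D)}(x) + c` of slope `θ` is

* `H ^ ((θ - 1) / 6 + o(1))` for every `5 ≤ θ ≤ 6`,
* at least `H ^ ((θ - 1) / 6 - ε)` for every `1 < θ ≤ 6`, at most `C H ^ (2 / 3 + ε)` for `θ ≤ 5`.

The exponent `(θ - 1) / 6` vanishes exactly at the slope `1` of the conjecture.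
-/

set_option autoImplicit false

namespace Pool.Agent.Results.MP_a41896_nt.ModularStack

open Filter Topology

/-- the discriminant of `x³ - a x - b` -/
def Disc (a b : ℤ) : ℤ := 4 * a ^ 3 - 27 * b ^ 2

/-- `y² = x³ - a x - b` is an elliptic curve and `|Disc|` is least among the integral models
`y² = x³ - a' x - b'`, `a' = u⁴ a`, `b' = u⁶ b`, `u ∈ ℚ^×`. Every elliptic curve over `ℚ` has exactly
one such model. -/
def IsMinimal (a b : ℤ) : Prop :=
  Disc a b ≠ 0 ∧ ∀ (u : ℚ) (a' b' : ℤ), u ≠ 0 → (a' : ℚ) = u ^ 4 * a → (b' : ℚ) = u ^ 6 * b →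
    |Disc a b| ≤ |Disc a' b'|

/-- the elliptic curve `q = (a, b)`, given by its minimal model, is an integral point over the
`S`-integers of the stack of generalised elliptic curves: it has no additive reduction outside `S` -/
def IsIntegralPoint (S : Finset ℕ) (q : ℤ × ℤ) : Prop :=
  IsMinimal q.1 q.2 ∧ ∀ p : ℕ, p.Prime → p ∉ S → ¬ ((p : ℤ) ∣ q.1 ∧ (p : ℤ) ∣ q.2)

/-- the `j`-invariant of `y² = x³ - a x - b`, the image of the point in the coarse moduli space -/
def j (q : ℤ × ℤ) : ℚ := 6912 * (q.1 : ℚ) ^ 3 / (4 * (q.1 : ℚ) ^ 3 - 27 * (q.2 : ℚ) ^ 2)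

/-- the height with respect to `K_X(D)`: one sixth of the height of `j` -/
noncomputable def hK (q : ℤ × ℤ) : ℝ := Height.logHeight₁ (j q) / 6

/-- the truncated counting function `N^(1)(D, x)` of the cusp: the sum of `log p` over the primes `p`
outside `S` which divide the denominator of `j` -/
noncomputable def truncated (S : Finset ℕ) (q : ℤ × ℤ) : ℝ :=
  ∑ p ∈ (j q).den.primeFactors.filter (fun p => p ∉ S), Real.log p

/-- the integral points with `h(j) ≤ log H` -/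
def Points (S : Finset ℕ) (H : ℝ) : Set (ℤ × ℤ) :=
  {q | IsIntegralPoint S q ∧ Height.logHeight₁ (j q) ≤ Real.log H}

/-- the points which violate the inequality `N^(1)(D, x) ≥ θ h_{K_X(D)}(x) + c` -/
def Violators (S : Finset ℕ) (θ c H : ℝ) : Set (ℤ × ℤ) :=
  {q ∈ Points S H | truncated S q < θ * hK q + c}

/-- `j` is the `j`-invariant of Mathlib -/
theorem j_eq (q : ℤ × ℤ) (h : Disc q.1 q.2 ≠ 0) (E : WeierstrassCurve ℚ) [E.IsElliptic]
    (hE : E = ⟨0, 0, 0, -(q.1 : ℚ), -(q.2 : ℚ)⟩) : E.j = j q := by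
  have hΔ : E.Δ = 16 * (4 * (q.1 : ℚ) ^ 3 - 27 * (q.2 : ℚ) ^ 2) := by
    rw [hE]
    simp only [WeierstrassCurve.Δ, WeierstrassCurve.b₂, WeierstrassCurve.b₄, WeierstrassCurve.b₆,
      WeierstrassCurve.b₈]
    ring
  have hc : E.c₄ = 48 * q.1 := by
    rw [hE]
    simp only [WeierstrassCurve.c₄, WeierstrassCurve.b₂, WeierstrassCurve.b₄]
    ring
  have h0 : (4 * (q.1 : ℚ) ^ 3 - 27 * (q.2 : ℚ) ^ 2) ≠ 0 := by
    unfold Disc at h
    exact_mod_cast h
  unfold WeierstrassCurve.j j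
  rw [Units.val_inv_eq_inv_val, WeierstrassCurve.coe_Δ', hΔ, hc]
  field_simp
  ring

/-- **Theorem.**  Let `S` be a finite set containing 2 and 3.
(0) The sets of integral points and of violators of bounded height are finite.
(1) There are `H ^ (5 / 6 + o(1))` integral points with `h(j) ≤ log H`.
(2) For `5 ≤ θ ≤ 6` and real `c`, `H ^ ((θ - 1) / 6 + o(1))` of them violate
`N^(1)(D, x) ≥ θ h_{K_X(D)}(x) + c`. (3) For `1 < θ ≤ 6` at least `H ^ ((θ - 1) / 6 - ε)` of them do, for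
all large `H`. (4) For `0 < θ ≤ 5` at most `C H ^ (2 / 3 + ε)` of them do. -/
theorem result (S : Finset ℕ) (h2 : 2 ∈ S) (h3 : 3 ∈ S) :
    (∀ H : ℝ, 1 ≤ H → (Points S H).Finite ∧ ∀ θ c : ℝ, (Violators S θ c H).Finite) ∧
    Tendsto (fun H : ℝ => Real.log ((Points S H).ncard : ℝ) / Real.log H) atTop (𝓝 (5 / 6)) ∧
    (∀ θ c : ℝ, 5 ≤ θ → θ ≤ 6 →
      Tendsto (fun H : ℝ => Real.log ((Violators S θ c H).ncard : ℝ) / Real.log H) atTop
        (𝓝 ((θ - 1) / 6))) ∧
    (∀ θ c ε : ℝ, 1 < θ → θ ≤ 6 → 0 < ε → ∃ H₀ : ℝ, ∀ H : ℝ, H₀ ≤ H →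
      H ^ ((θ - 1) / 6 - ε) ≤ ((Violators S θ c H).ncard : ℝ)) ∧
    (∀ θ c ε : ℝ, 0 < θ → θ ≤ 5 → 0 < ε → ∃ C : ℝ, 0 < C ∧ ∀ H : ℝ, 1 ≤ H →
      ((Violators S θ c H).ncard : ℝ) ≤ C * H ^ (2 / 3 + ε)) := by
  have eP : ∀ H : ℝ, Points S H = Pool.Agent.X12.Stk.PH S H := by
    intro H
    ext q
    exact and_assoc
  have eV : ∀ θ c H : ℝ, Violators S θ c H = Pool.Agent.X12.Stk.QH S θ c H := by
    intro θ c H
    ext q
    constructor
    · rintro ⟨k1, k2⟩
      exact ⟨(eP H) ▸ k1, k2⟩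
    · rintro ⟨k1, k2⟩
      exact ⟨(eP H).symm ▸ k1, k2⟩
  simp only [eP, eV]
  have hlow : ∀ θ c ε : ℝ, 1 < θ → θ ≤ 6 → 0 < ε → ∃ H₀ : ℝ, ∀ H : ℝ, H₀ ≤ H →
      H ^ ((θ - 1) / 6 - ε) ≤ ((Pool.Agent.X12.Stk.QH S θ c H).ncard : ℝ) :=
    fun θ c ε k1 k2 k3 => Pool.Agent.X12.Stk.QH_lower h2 h3 θ c ε k1 k2 k3
  refine ⟨fun H hH => ⟨Pool.Agent.X12.Stk.PH_finite h2 h3 hH, fun θ c =>
    Pool.Agent.X12.Stk.QH_finite h2 h3 θ c hH⟩, ?_, ?_, hlow, ?_⟩
  · refine Pool.Agent.X12.Szp.tendsto_of_bounds _ _ (fun ε hε => ?_) fun ε hε => ?_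
    · obtain ⟨H0, h⟩ := hlow 6 0 ε (by norm_num) le_rfl hε
      refine ⟨max H0 1, fun H hH => ?_⟩
      have k1 := h H ((le_max_left _ _).trans hH)
      have k2 : 1 ≤ H := (le_max_right _ _).trans hH
      have e1 : (6 - 1 : ℝ) / 6 - ε = 5 / 6 - ε := by norm_num
      rw [e1] at k1
      refine k1.trans ?_
      have e2 : Pool.Agent.X12.Stk.QH S 6 0 H ⊆ Pool.Agent.X12.Stk.PH S H := fun q hq => hq.1
      exact_mod_cast Set.ncard_le_ncard e2 (Pool.Agent.X12.Stk.PH_finite h2 h3 k2)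
    · obtain ⟨C, hC, h⟩ := Pool.Agent.X12.Stk.PH_upper h2 h3
      refine ⟨C, hC, fun H hH => (h H hH).trans ?_⟩
      have : H ^ (5 / 6 : ℝ) ≤ H ^ (5 / 6 + ε : ℝ) :=
        Real.rpow_le_rpow_of_exponent_le hH (by linarith)
      gcongr
  · intro θ c k5 k6
    refine Pool.Agent.X12.Szp.tendsto_of_bounds _ _ (fun ε hε => hlow θ c ε (by linarith) k6 hε)
      fun ε hε => ?_
    obtain ⟨C, hC, h⟩ := Pool.Agent.X12.Stk.QH_upper h2 h3 θ c ε (by linarith) hε
    refine ⟨C, hC, fun H hH => (h H hH).trans (le_of_eq ?_)⟩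
    rw [max_eq_left (by linarith)]
  · intro θ c ε k0 k5 hε
    obtain ⟨C, hC, h⟩ := Pool.Agent.X12.Stk.QH_upper h2 h3 θ c ε k0 hε
    refine ⟨C, hC, fun H hH => (h H hH).trans (le_of_eq ?_)⟩
    rw [max_eq_right (by linarith)]

end Pool.Agent.Results.MP_a41896_nt.ModularStack
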