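import Pool.Agent.X95T.HM3

/-!
# Integral points on stacky curves with one place at infinity: a uniform bound

Let `n ≥ 3` and let `F = γ y ^ k - x ^ (n δ) + …` (terms of smaller weight, `gcd (k, n δ) = 1`) be an
integral polynomial; the curve `F = 0` has exactly one place `D` at infinity, and it is rational. Let
`𝒳` be the stacky curve obtained from it by adjoining an `n`-th root of the divisor of the function
`y`. An integer point `(x, y)` of `F = 0` is an integral point of `𝒳` outside `S` if the valuations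
`v_q (y)`, `q ∉ S`, are divisible by `n`, that is, if `y = a z ^ n` with an `S`-unit `a`. We bound all
these points by a power of the coefficients of `F`, with one constant for all `F` whose leading
coefficient `γ` is an `S`-unit, and with an exponent that depends only on `n, k, δ`.
-/

set_option autoImplicit false

namespace Pool.Agent.Results.MP_a41896_nt.OnePlaceAtInfinity

theorem result (n k δ : ℕ) (hn : 3 ≤ n) (hk : 1 ≤ k) (hδ : 1 ≤ δ)
    (hkn : Nat.Coprime k (n * δ)) :
    ∃ C : ℕ, ∀ S : Finset ℕ, ∃ c : ℕ, ∀ (γ : ℤ) (F : MvPolynomial (Fin 2) ℤ),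
      γ ≠ 0 → (∀ q : ℕ, q.Prime → (q : ℤ) ∣ γ → q ∈ S) →
      (∀ s ∈ (F - MvPolynomial.C γ * MvPolynomial.X 1 ^ k +
        MvPolynomial.X 0 ^ (n * δ)).support, k * s 0 + (n * δ) * s 1 < (n * δ) * k) →
      (∀ q : ℕ, q.Prime → q ∣ n → ∀ (h : Polynomial ℚ) (e : ℚ),
        (MvPolynomial.aeval ![(Polynomial.X : Polynomial ℤ), (0 : Polynomial ℤ)] F).map
          (Int.castRingHom ℚ) ≠ Polynomial.C e * h ^ q) →
      ∀ x y a z : ℤ, MvPolynomial.eval ![x, y] F = 0 → y = a * z ^ n → a ≠ 0 →
        (∀ q : ℕ, q.Prime → (q : ℤ) ∣ a → q ∈ S) →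
        max x.natAbs y.natAbs ≤ (c * ∑ s ∈ F.support, (F.coeff s).natAbs) ^ C :=
  Pool.Agent.X95T.stackOne n k δ hn hk hδ hkn

end Pool.Agent.Results.MP_a41896_nt.OnePlaceAtInfinity
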