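import Pool.Agent.X95T.HN2

/-!
# Integral points on stacky curves with one place of degree two at infinity: a uniform bound

Let `n ≥ 2`, `gcd (k, n) = 1`, and let `F = y ^ (2 k) + α y ^ k x ^ (n δ) + β x ^ (2 n δ) + …` (terms of
smaller weight) be an irreducible integral polynomial, `α ^ 2 - 4 β` not a square. The two slopes of
the curve `F = 0` at infinity are conjugate (for `k = 1` it has exactly one place `D` at infinity, of
degree two). Let `𝒳` be the stacky curve obtained from it by adjoining an `n`-th root of the divisor of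
the function `y`. An integer point `(x, y)` of `F = 0` is an integral point of `𝒳` outside `S` if the
valuations `v_q (y)`, `q ∉ S`, are divisible by `n`, that is, if `y = a z ^ n` with an `S`-unit `a`. We
bound all these points by a power of the coefficients of `F`, with one constant for all `F` with the
given `α` and `β`.

The curves `F (x, a z ^ n) = 0` are irreducible, since `F (x, 0)` is not a power (norm argument). If such a
curve has only one place at infinity, this place is invariant under `z ↦ ξ z`, `ξ ^ n = 1`, and so its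
residue field has a degree `≥ 3`.
-/

set_option autoImplicit false

namespace Pool.Agent.Results.MP_a41896_nt.OneQuadraticPlace

theorem result (n k δ : ℕ) (hn : 2 ≤ n) (hk : 1 ≤ k) (hδ : 1 ≤ δ) (hkn : Nat.Coprime k n) :
    ∃ C : ℕ, ∀ α β : ℤ, ¬ IsSquare (α ^ 2 - 4 * β) → ∀ S : Finset ℕ, ∃ c : ℕ,
      ∀ F : MvPolynomial (Fin 2) ℤ,
      (∀ s ∈ (F - MvPolynomial.X 1 ^ (2 * k) -
          MvPolynomial.C α * MvPolynomial.X 1 ^ k * MvPolynomial.X 0 ^ (n * δ) -
          MvPolynomial.C β * MvPolynomial.X 0 ^ (2 * (n * δ))).support,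
        k * s 0 + (n * δ) * s 1 < 2 * (n * δ) * k) →
      Irreducible (MvPolynomial.map (Int.castRingHom ℚ) F) →
      (∀ q : ℕ, q.Prime → q ∣ n → ∀ (h : Polynomial ℚ) (e : ℚ),
        (MvPolynomial.aeval ![(Polynomial.X : Polynomial ℤ), (0 : Polynomial ℤ)] F).map
          (Int.castRingHom ℚ) ≠ Polynomial.C e * h ^ q) →
      ∀ x y a z : ℤ, MvPolynomial.eval ![x, y] F = 0 → y = a * z ^ n → a ≠ 0 →
        (∀ q : ℕ, q.Prime → (q : ℤ) ∣ a → q ∈ S) →
        max x.natAbs y.natAbs ≤ (c * ∑ m ∈ F.support, (F.coeff m).natAbs) ^ C :=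
  Pool.Agent.X95T.stackQuad n k δ hn hk hδ hkn

end Pool.Agent.Results.MP_a41896_nt.OneQuadraticPlace
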