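import Pool.Agent.X95T.HO5

/-!
# Integral points on the line with square roots along two divisors: a uniform bound

Let `f₁, f₂ ∈ ℤ[x]` be polynomials of even degrees whose leading coefficients are `S`-units, such that
none of `f₁, f₂, f₁ f₂` is a constant times a square. Let `𝒳` be the stacky curve obtained from the
projective line by adjoining square roots of the divisors of zeros of `f₁` and of `f₂`. The integers `x`
such that `f₁ (x) = a z₁ ^ 2`, `f₂ (x) = b z₂ ^ 2` with `S`-units `a, b` are integral points of `𝒳` (root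
structure outside `S`) with respect to the point at infinity. We bound them by a power of the
coefficients of `f₁` and `f₂`, with one constant for each `S` and an exponent that depends only on the
degrees.

The cover of the line given by `t = z₁ + z₂` is Galois with the group `(ℤ/2)²`, and it is unramified at
infinity. If it has only one place there, this place is invariant under the Galois group, so its residue
field is biquadratic; it is one of finitely many.
-/

set_option autoImplicit false

namespace Pool.Agent.Results.MP_a41896_nt.TwoSquareRoots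

open Polynomial

theorem result (m₁ m₂ : ℕ) : ∃ C : ℕ, ∀ S : Finset ℕ, ∃ c : ℕ, ∀ f₁ f₂ : ℤ[X],
    f₁.natDegree = 2 * m₁ → f₂.natDegree = 2 * m₂ →
    (∀ q : ℕ, q.Prime → (q : ℤ) ∣ f₁.leadingCoeff * f₂.leadingCoeff → q ∈ S) →
    (∀ (h : ℚ[X]) (e : ℚ), f₁.map (Int.castRingHom ℚ) ≠ Polynomial.C e * h ^ 2 ∧
      f₂.map (Int.castRingHom ℚ) ≠ Polynomial.C e * h ^ 2 ∧
      (f₁ * f₂).map (Int.castRingHom ℚ) ≠ Polynomial.C e * h ^ 2) →
    ∀ x a b z₁ z₂ : ℤ, f₁.eval x = a * z₁ ^ 2 → f₂.eval x = b * z₂ ^ 2 → a * b ≠ 0 →
      (∀ q : ℕ, q.Prime → (q : ℤ) ∣ a * b → q ∈ S) →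
      x.natAbs ≤ (c * (∑ i ∈ f₁.support, (f₁.coeff i).natAbs +
        ∑ i ∈ f₂.support, (f₂.coeff i).natAbs)) ^ C :=
  Pool.Agent.X95T.twoSquares m₁ m₂

end Pool.Agent.Results.MP_a41896_nt.TwoSquareRoots
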